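import Pool.Agent.Q7.TS.Speed

open Complex Set Filter Topology Metric

namespace Pool.Agent.Results.MP_ab13d2_an.SlowTangentialSpeed

/-- `T_z(w) = (z - w) / (1 - z̄ w)`. -/
noncomputable def T (z w : ℂ) : ℂ := (z - w) / (1 - (starRingEnd ℂ) z * w)

/-- The hyperbolic distance `ω(z, w)` of the unit disc. -/
noncomputable def omega (z w : ℂ) : ℝ :=
  1 / 2 * Real.log ((1 + ‖T z w‖) / (1 - ‖T z w‖))

/-- `(φ_t)`, `t ≥ 0`, is a non-elliptic semigroup of holomorphic self-maps of the unit disc. The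
values of `φ` for `t < 0` or outside the disc play no role. -/
structure IsSemigroup (φ : ℝ → ℂ → ℂ) : Prop where
  maps : ∀ t, 0 ≤ t → MapsTo (φ t) (ball 0 1) (ball 0 1)
  holo : ∀ t, 0 ≤ t → DifferentiableOn ℂ (φ t) (ball 0 1)
  zero : ∀ z ∈ ball (0 : ℂ) 1, φ 0 z = z
  add : ∀ s t, 0 ≤ s → 0 ≤ t → ∀ z ∈ ball (0 : ℂ) 1, φ (t + s) z = φ t (φ s z)
  cont : ∀ t₀, 0 ≤ t₀ → ∀ K ⊆ ball (0 : ℂ) 1, IsCompact K →
    TendstoUniformlyOn φ (φ t₀) (𝓝[Ici 0] t₀) K
  fixed : ∀ t, 0 < t → ∀ z ∈ ball (0 : ℂ) 1, φ t z ≠ z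

/-- `τ` is the Denjoy-Wolff point of `(φ_t)`: a point of the unit circle such that `φ_t → τ`
uniformly on compact subsets of the disc as `t → ∞`. -/
def IsDenjoyWolff (φ : ℝ → ℂ → ℂ) (τ : ℂ) : Prop :=
  ‖τ‖ = 1 ∧ ∀ K ⊆ ball (0 : ℂ) 1, IsCompact K → TendstoUniformlyOn φ (fun _ => τ) atTop K

/-- `h` is a Koenigs function of `(φ_t)`: `h` is univalent on the disc and
`h (φ_t z) = h z + i t`. -/
def IsKoenigs (φ : ℝ → ℂ → ℂ) (h : ℂ → ℂ) : Prop :=
  DifferentiableOn ℂ h (ball 0 1) ∧ InjOn h (ball 0 1) ∧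
    ∀ t, 0 ≤ t → ∀ z ∈ ball (0 : ℂ) 1, h (φ t z) = h z + I * t

/-- `Ω = ⋃_{t ≥ 0} (h(𝔻) - i t)`. -/
def Omega (h : ℂ → ℂ) : Set ℂ := {w | ∃ t : ℝ, 0 ≤ t ∧ w + t * I ∈ h '' ball 0 1}

/-- `(φ_t)` is parabolic of positive hyperbolic step: `Ω` is, up to translation, the half-plane
`{Re w > 0}` or the half-plane `{Re w < 0}`. -/
def PositiveStep (φ : ℝ → ℂ → ℂ) : Prop :=
  ∃ h : ℂ → ℂ, IsKoenigs φ h ∧ ∃ c : ℂ,
    Omega h = {w | 0 < (w - c).re} ∨ Omega h = {w | (w - c).re < 0}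

/-- The tangential speed `v^T(t)`: the hyperbolic distance from `φ_t(0)` to the diameter
`{r τ : -1 < r < 1}`, i.e. to the point of this diameter nearest to `φ_t(0)`. -/
noncomputable def vT (φ : ℝ → ℂ → ℂ) (τ : ℂ) (t : ℝ) : ℝ :=
  ⨅ r : Ioo (-1 : ℝ) 1, omega (((r : ℝ) : ℂ) * τ) (φ t 0)

open Pool.Agent.Q7.TS in
lemma omega_nonneg {z w : ℂ} (hz : ‖z‖ < 1) (hw : ‖w‖ < 1) : 0 ≤ omega z w := by
  have h1 : ‖T z w‖ < 1 := by
    have hne : 1 - (starRingEnd ℂ) z * w ≠ 0 := by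
      apply one_sub_ne
      rw [norm_mul, Complex.norm_conj]
      nlinarith [norm_nonneg z, norm_nonneg w]
    rw [T, norm_div, div_lt_one (norm_pos_iff.2 hne)]
    refine lt_of_pow_lt_pow_left₀ 2 (norm_nonneg _) ?_
    have hz2 : Complex.normSq z < 1 := by
      rw [Complex.normSq_eq_norm_sq]; nlinarith [norm_nonneg z]
    have hw2 : Complex.normSq w < 1 := by
      rw [Complex.normSq_eq_norm_sq]; nlinarith [norm_nonneg w]
    have e : Complex.normSq (1 - (starRingEnd ℂ) z * w) - Complex.normSq (z - w)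
        = (1 - Complex.normSq z) * (1 - Complex.normSq w) := by
      simp only [Complex.normSq_apply, Complex.sub_re, Complex.sub_im, Complex.mul_re,
        Complex.mul_im, Complex.conj_re, Complex.conj_im, Complex.one_re, Complex.one_im]
      ring
    rw [← Complex.normSq_eq_norm_sq, ← Complex.normSq_eq_norm_sq]
    nlinarith [mul_pos (sub_pos.2 hz2) (sub_pos.2 hw2)]
  rw [omega]
  apply mul_nonneg (by norm_num)
  apply Real.log_nonneg
  rw [le_div_iff₀ (by linarith)]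
  linarith [norm_nonneg (T z w)]

open Pool.Agent.Q7.TS in
/-- **Disproof of Q1.** There is a parabolic semigroup `(φ_t)` of positive hyperbolic step, with
Denjoy-Wolff point `τ`, whose tangential speed satisfies `v^T(t) ≤ (1/4) log t + C` for all `t ≥ 1`;
in particular `v^T(t) - (1/2) log t` is unbounded. -/
theorem result : ∃ (φ : ℝ → ℂ → ℂ) (τ : ℂ), IsSemigroup φ ∧ IsDenjoyWolff φ τ ∧ PositiveStep φ ∧
    (∃ C : ℝ, ∀ t : ℝ, 1 ≤ t → vT φ τ t ≤ 1 / 4 * Real.log t + C) ∧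
    ¬ ∃ C : ℝ, ∀ t : ℝ, 1 ≤ t → |vT φ τ t - 1 / 2 * Real.log t| < C := by
  have main : ∃ C : ℝ, ∀ t : ℝ, 1 ≤ t → vT phi 1 t ≤ 1 / 4 * Real.log t + C := by
    obtain ⟨D, hD, hr⟩ := ratio_le
    refine ⟨1 / 2 * Real.log (4 * D), fun t ht => ?_⟩
    have ht0 : (0 : ℝ) ≤ t := by linarith
    have h00 : ‖(0 : ℂ)‖ < 1 := by simp
    have hS := L_cay_mem h00
    have him := cosh_im_pos (E_mem hS ht0)
    set w : ℂ := Complex.cosh (E t (L (cay 0))) with hw
    have hphi : phi t 0 = Pool.Agent.Q7.TS.inv w := rfl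
    have hwpos : 0 < ‖w‖ := norm_pos_iff.2 (ne_zero_of_im_pos him)
    have hbdd : BddBelow (range fun r : Ioo (-1 : ℝ) 1 => omega (((r : ℝ) : ℂ) * 1) (phi t 0)) := by
      refine ⟨0, ?_⟩
      rintro _ ⟨r, rfl⟩
      apply omega_nonneg _ (phi_norm ht0 h00)
      rw [mul_one, Complex.norm_real, Real.norm_eq_abs, abs_lt]
      exact ⟨r.2.1, r.2.2⟩
    have hmem : (‖w‖ - 1) / (‖w‖ + 1) ∈ Ioo (-1 : ℝ) 1 := by
      constructor
      · rw [lt_div_iff₀ (by linarith)]; linarith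
      · rw [div_lt_one (by linarith)]; linarith
    have h1 : vT phi 1 t ≤ omega ((((‖w‖ - 1) / (‖w‖ + 1) : ℝ) : ℂ) * 1) (phi t 0) :=
      ciInf_le hbdd ⟨_, hmem⟩
    have h2 : omega ((((‖w‖ - 1) / (‖w‖ + 1) : ℝ) : ℂ) * 1) (phi t 0)
        ≤ 1 / 2 * Real.log (4 * (‖w‖ / w.im)) := by
      rw [omega, T, mul_one, Complex.conj_ofReal, hphi]
      exact key_log him (norm_nonneg _) (key_norm him)
    have h3 : Real.log (4 * (‖w‖ / w.im)) ≤ Real.log (4 * D * Real.sqrt t) := by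
      apply Real.log_le_log (by positivity)
      have := hr t ht
      linarith
    have h4 : Real.log (4 * D * Real.sqrt t) = Real.log (4 * D) + 1 / 2 * Real.log t := by
      rw [Real.log_mul (by positivity) (by positivity), Real.log_sqrt ht0]; ring
    linarith
  refine ⟨phi, 1, ?_, ?_, ?_, main, ?_⟩
  · refine ⟨fun t ht z hz => ?_, fun t ht z hz => ?_, fun z hz => ?_, fun s t hs _ z hz => ?_,
      fun t₀ ht₀ K hK hKc => ?_, fun t ht z hz h => ?_⟩
    · rw [mem_ball_iff] at hz ⊢; exact phi_norm ht hz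
    · rw [mem_ball_iff] at hz; exact (differentiableAt_phi ht hz).differentiableWithinAt
    · rw [mem_ball_iff] at hz; exact phi_zero hz
    · rw [mem_ball_iff] at hz; exact phi_add hs hz
    · intro u hu
      have hc : ContinuousOn (Function.uncurry phi) (Ici (0 : ℝ) ×ˢ K) := by
        rintro ⟨t, z⟩ ⟨ht, hz⟩
        exact (continuousAt_phi ht (mem_ball_iff.1 (hK hz))).continuousWithinAt
      have hu' : {p : ℂ × ℂ | (p.2, p.1) ∈ u} ∈ uniformity ℂ := by
        have := Filter.Tendsto.eventually (tendsto_swap_uniformity (α := ℂ)) hu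
        exact this
      obtain ⟨v, hv, hv2⟩ := hKc.mem_uniformity_of_prod hc (show t₀ ∈ Ici (0 : ℝ) from ht₀) hu'
      filter_upwards [hv] with t ht z hz
      exact hv2 t ht z hz
    · rw [mem_ball_iff] at hz
      have h1 := koe_phi ht.le hz
      rw [h] at h1
      have h2 : I * (t : ℂ) = 0 := by linear_combination -h1
      rcases mul_eq_zero.1 h2 with h3 | h3
      · exact I_ne_zero h3
      · exact ht.ne' (by exact_mod_cast h3)
  · refine ⟨by simp, fun K hK _ => ?_⟩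
    rw [Metric.tendstoUniformlyOn_iff]
    intro ε hε
    have h1 : Tendsto (fun t : ℝ => 2 / Real.sqrt (t - Real.pi ^ 2)) atTop (𝓝 0) := by
      apply Tendsto.div_atTop tendsto_const_nhds
      exact Real.tendsto_sqrt_atTop.comp (tendsto_atTop_add_const_right _ _ tendsto_id)
    filter_upwards [h1.eventually (gt_mem_nhds hε), eventually_gt_atTop (Real.pi ^ 2)]
      with t h2 h3 z hz
    rw [dist_comm, dist_eq_norm]
    exact (phi_sub_one h3 (mem_ball_iff.1 (hK hz))).trans_lt h2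
  · refine ⟨koe, ⟨fun z hz => ?_, fun z hz w hw h => ?_, fun t ht z hz => ?_⟩, 0, Or.inr ?_⟩
    · rw [mem_ball_iff] at hz; exact (differentiableAt_koe hz).differentiableWithinAt
    · rw [mem_ball_iff] at hz hw; exact koe_inj hz hw h
    · rw [mem_ball_iff] at hz; exact koe_phi ht hz
    · ext w
      simp only [Omega, Set.mem_ofPred_eq, sub_zero]
      constructor
      · rintro ⟨t, _, z, hz, hzw⟩
        have := koe_re_neg (mem_ball_iff.1 hz)
        rw [hzw] at this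
        simpa using this
      · intro hw
        obtain ⟨t, ht, z, hz, h⟩ := exists_koe hw
        exact ⟨t, ht, z, mem_ball_iff.2 hz, h⟩
  · rintro ⟨C, hC⟩
    obtain ⟨C', hC'⟩ := main
    set t : ℝ := Real.exp (4 * (|C| + |C'|)) with ht
    have h1 : 1 ≤ t := Real.one_le_exp (by positivity)
    have h2 := hC t h1
    have h3 := hC' t h1
    have h4 : Real.log t = 4 * (|C| + |C'|) := Real.log_exp _
    rw [h4] at h2 h3
    have h5 := (abs_lt.1 h2).1
    have h6 := le_abs_self C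
    have h7 := le_abs_self C'
    linarith

end Pool.Agent.Results.MP_ab13d2_an.SlowTangentialSpeed
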